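import Pool.Agent.helper93.PX.Spec

/-! # Row px:CAT: concatenation of nonempty lists -/

set_option autoImplicit false

namespace Pool.Agent.PX

theorem CAT_ex (L : ℕ → ℕ) (hL : ∀ j, 0 < L j) (κ : ℕ → ℕ) (h0 : κ 0 = 0)
    (hs : ∀ j, κ (j + 1) = κ j + L j) : ∀ n, ∃ j i, i < L j ∧ n = κ j + i := by
  intro n
  induction n with
  | zero => exact ⟨0, 0, hL 0, by omega⟩
  | succ n ih =>
    obtain ⟨j, i, hi, hn⟩ := ih
    by_cases h : i + 1 < L j
    · exact ⟨j, i + 1, h, by omega⟩
    · refine ⟨j + 1, 0, hL _, ?_⟩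
      rw [hs]
      omega

theorem CAT_mono (L : ℕ → ℕ) (κ : ℕ → ℕ)
    (hs : ∀ j, κ (j + 1) = κ j + L j) (j k : ℕ) (h : j < k) : κ j + L j ≤ κ k := by
  induction k with
  | zero => omega
  | succ k ih =>
    rw [hs]
    rcases Nat.lt_succ_iff_lt_or_eq.1 h with h1 | h1
    · have := ih h1
      omega
    · subst h1
      omega

theorem CAT : CAT_stmt := by
  intro Bl p hne hper
  have hL : ∀ j, 0 < (Bl j).length := fun j => List.length_pos_iff.2 (hne j)
  let κ : ℕ → ℕ := fun j => ∑ i ∈ Finset.range j, (Bl i).length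
  have h0 : κ 0 = 0 := by simp [κ]
  have hs : ∀ j, κ (j + 1) = κ j + (Bl j).length := fun j => by
    simp [κ, Finset.sum_range_succ]
  have hex := CAT_ex (fun j => (Bl j).length) hL κ h0 hs
  have hmono := CAT_mono (fun j => (Bl j).length) κ hs
  choose J I hI hn using hex
  have huniq : ∀ j i, i < (Bl j).length → J (κ j + i) = j ∧ I (κ j + i) = i := by
    intro j i hi
    have h1 := hI (κ j + i)
    have h2 := hn (κ j + i)
    have h3 : J (κ j + i) = j := by
      rcases lt_trichotomy (J (κ j + i)) j with h | h | h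
      · have := hmono _ _ h
        omega
      · exact h
      · have := hmono _ _ h
        omega
    refine ⟨h3, ?_⟩
    rw [h3] at h2
    omega
  have hα : ∀ j i, ∀ h : i < (Bl j).length,
      (fun n => (Bl (J n)).getD (I n) 0) (κ j + i) = (Bl j)[i] := by
    intro j i h
    obtain ⟨h1, h2⟩ := huniq j i h
    simp only [h1, h2]
    exact List.getD_eq_getElem _ _ h
  have hadd : ∀ j, κ (j + p) = κ j + κ p := by
    intro j
    induction j with
    | zero => rw [Nat.zero_add, h0, Nat.zero_add]
    | succ j ih =>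
      rw [hs, show j + 1 + p = (j + p) + 1 by omega, hs, ih, hper]
      omega
  refine ⟨κ, fun n => (Bl (J n)).getD (I n) 0, h0, hs, hα, ?_, fun n => ⟨J n, I n, hI n, hn n⟩⟩
  intro n
  have hi : I n < (Bl (J n)).length := hI n
  have e1 : n + κ p = κ (J n + p) + I n := by
    rw [hadd]
    have := hn n
    omega
  have hi' : I n < (Bl (J n + p)).length := by rw [hper]; exact hi
  have a1 := hα (J n + p) (I n) hi'
  have a2 := hα (J n) (I n) hi
  rw [← hn n] at a2
  rw [← e1] at a1
  rw [a1, a2]
  simp only [hper]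

end Pool.Agent.PX
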